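import Pool.Agent.Lib.MP_0bba66_co.Collapse

set_option autoImplicit false

namespace Pool.Agent.Results.MP_0bba66_co.FormulaFails

open Finset Pool.Agent.Lib.MP_0bba66_co

/-- The `A`-part `S ∩ A` of a subset `S` of the disjoint union `A ∪ B`, where `A` and `B` are the
two copies of `Fin N` in `Fin N ⊕ Fin N`. -/
def partA {N : ℕ} (S : Finset (Fin N ⊕ Fin N)) : Finset (Fin N) :=
  Finset.univ.filter (fun a => Sum.inl a ∈ S)

/-- The `B`-part `S ∩ B` of a subset `S` of the disjoint union `A ∪ B`. -/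
def partB {N : ℕ} (S : Finset (Fin N ⊕ Fin N)) : Finset (Fin N) :=
  Finset.univ.filter (fun b => Sum.inr b ∈ S)

/-- A family `F` of subsets of `A ∪ B` (with `|A| = |B| = N`, `A` and `B` disjoint) is
semiintersecting with parameters `(k, N)` if every member meets `A` and `B` in exactly `k` elements
and for any two distinct members exactly one of the intersections `S_A ∩ T_A`, `S_B ∩ T_B` is
nonempty. -/
def Semiintersecting (k N : ℕ) (F : Finset (Finset (Fin N ⊕ Fin N))) : Prop :=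
  (∀ S ∈ F, (partA S).card = k ∧ (partB S).card = k) ∧
  ∀ S ∈ F, ∀ T ∈ F, S ≠ T →
    Xor (partA S ∩ partA T).Nonempty (partB S ∩ partB T).Nonempty

/-- `f k N` is the largest cardinality of a semiintersecting family with parameters `(k, N)`. -/
noncomputable def f (k N : ℕ) : ℕ :=
  sSup {m | ∃ F : Finset (Finset (Fin N ⊕ Fin N)), Semiintersecting k N F ∧ F.card = m}

/-- Sanity check (not needed below): the supremum defining `f k N` is attained. -/
theorem f_attained (k N : ℕ) :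
    ∃ F : Finset (Finset (Fin N ⊕ Fin N)), Semiintersecting k N F ∧ F.card = f k N := by
  have h : f k N ∈ {m | ∃ F : Finset (Finset (Fin N ⊕ Fin N)),
      Semiintersecting k N F ∧ F.card = m} := by
    refine Nat.sSup_mem ⟨0, ∅, ?_, rfl⟩ ⟨Fintype.card (Finset (Fin N ⊕ Fin N)), ?_⟩
    · refine ⟨fun S hS => absurd hS (Finset.notMem_empty S), fun S hS => ?_⟩
      exact absurd hS (Finset.notMem_empty S)
    · rintro m ⟨F, _, rfl⟩
      exact Finset.card_le_univ F
  exact h

/-- There are at most nine members for the parameters `(3t, 10t)`. -/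
theorem card_le_nine (t : ℕ) (ht : 0 < t) (F : Finset (Finset (Fin (10 * t) ⊕ Fin (10 * t))))
    (hF : Semiintersecting (3 * t) (10 * t) F) : F.card ≤ 9 := by
  by_contra hcon
  push Not at hcon
  obtain ⟨F', hF', hc⟩ := Finset.exists_subset_card_eq (show 10 ≤ F.card by omega)
  refine no_fam (V := {S // S ∈ F'}) (t := t) (P := fun S => partA S.1)
    (Q := fun S => partB S.1) ?_
  refine ⟨ht, ?_, ?_, ?_, ?_, ?_, ?_⟩
  · rw [Fintype.card_coe, hc]
  · rw [Fintype.card_fin]
  · rw [Fintype.card_fin]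
  · exact fun S => (hF.1 S.1 (hF' S.2)).1
  · exact fun S => (hF.1 S.1 (hF' S.2)).2
  · intro S T hST
    exact hF.2 S.1 (hF' S.2) T.1 (hF' T.2) (fun h => hST (Subtype.ext h))

theorem f_le_nine (t : ℕ) (ht : 0 < t) : f (3 * t) (10 * t) ≤ 9 := by
  obtain ⟨F, hF, hc⟩ := f_attained (3 * t) (10 * t)
  rw [← hc]
  exact card_le_nine t ht F hF

/-- **Main result.** The formula `f(k,N) = ⌊N⌊N/k⌋/k⌋` for `N ≤ k²` is false: for every `t ≥ 2` the
parameters `(k,N) = (3t, 10t)` satisfy `N ≤ k²`, the formula gives `10`, but `f(3t, 10t) ≤ 9`.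
(Division of natural numbers is integer division, i.e. rounded down.) -/
theorem result :
    (¬ ∀ k N : ℕ, 0 < k → 0 < N → N ≤ k ^ 2 → f k N = N * (N / k) / k) ∧
    ∀ t : ℕ, 2 ≤ t → 10 * t ≤ (3 * t) ^ 2 ∧ 10 * t * (10 * t / (3 * t)) / (3 * t) = 10 ∧
      f (3 * t) (10 * t) ≤ 9 := by
  have key : ∀ t : ℕ, 2 ≤ t → 10 * t ≤ (3 * t) ^ 2 ∧
      10 * t * (10 * t / (3 * t)) / (3 * t) = 10 ∧ f (3 * t) (10 * t) ≤ 9 := by
    intro t ht
    refine ⟨by nlinarith, ?_, f_le_nine t (by omega)⟩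
    have h1 : 10 * t / (3 * t) = 3 := by
      rw [Nat.mul_div_mul_right _ _ (by omega)]
    rw [h1]
    have h2 : 10 * t * 3 = 10 * (3 * t) := by ring
    rw [h2, Nat.mul_div_cancel _ (by omega)]
  refine ⟨?_, key⟩
  intro h
  obtain ⟨h1, h2, h3⟩ := key 2 (le_refl 2)
  have h4 := h (3 * 2) (10 * 2) (by norm_num) (by norm_num) h1
  omega

end Pool.Agent.Results.MP_0bba66_co.FormulaFails
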